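import Pool.Agent.U183.HS.Crit
import Pool.Agent.R461.HM.Seq
import Pool.Agent.R461.HM.AP

set_option autoImplicit false

/-! Bounds for the weighted sum of the characters: arithmetic progressions, dilates of separated sequences, Frostman measures. -/

namespace Pool.Agent.U183.HS

open Complex Filter Topology MeasureTheory Set
open scoped ContDiff ENNReal
open Pool.Agent.W182.KO
open Pool.Agent.U325.DS (wI wI_pos wI_summable fr fr_ne)
open Pool.Agent.R461.HM (unif integral_unif bad bad_vol geom_bound)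

noncomputable section

/-- the weights with the reciprocals of the frequencies -/
def wfr (δ : ℝ) (p : ℕ × ℕ) : ℝ :=
  if p.1 = p.2 then 0 else wI δ p.1 * wI δ p.2 * (1 + 1 / |fr p.1 p.2|)

lemma wfr_nonneg (δ : ℝ) (p : ℕ × ℕ) : 0 ≤ wfr δ p := by
  unfold wfr
  have h1 := (wI_pos δ p.1).le
  have h2 := (wI_pos δ p.2).le
  split_ifs
  · exact le_rfl
  · positivity

lemma wfr_summable {δ : ℝ} (hδ : 0 < δ) : Summable (wfr δ) := by
  obtain ⟨κ, hκd⟩ : ∃ κ, κ = δ / 3 := ⟨_, rfl⟩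
  have hκ : 0 < κ := by rw [hκd]; positivity
  have h3 : 3 * κ = δ := by rw [hκd]; ring
  have hsm : Summable (fun x : ℕ × ℕ => uu κ x.1 * uu κ x.2 + (uu κ x.2 * uu κ (x.1 - x.2) + uu κ x.1 * uu κ (x.2 - x.1))) :=
    (uu_prod_summable hκ).add ((uu_sub_summable hκ).add (uu_sub_summable' hκ))
  have hi : Function.Injective (fun x : ℕ × ℕ => (x.1 + 1, x.2 + 1)) := by
    rintro ⟨a, b⟩ ⟨a', b'⟩ h
    simp only [Prod.mk.injEq] at h ⊢
    omega
  refine Summable.of_nonneg_of_le (wfr_nonneg δ) (fun p => ?_) (hsm.comp_injective hi)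
  obtain ⟨m, n⟩ := p
  simp only [Function.comp]
  have n1 := uu_nonneg κ (m + 1)
  have n2 := uu_nonneg κ (n + 1)
  have n3 := uu_nonneg κ (m + 1 - (n + 1))
  have n4 := uu_nonneg κ (n + 1 - (m + 1))
  unfold wfr
  simp only
  split_ifs with h
  · positivity
  · have h4 := off_le hκ (show 1 ≤ m + 1 by omega) (show 1 ≤ n + 1 by omega) (show m + 1 ≠ n + 1 by omega)
    have hm0 : (0:ℝ) < ((m + 1 : ℕ) : ℝ) := by positivity
    have hn0 : (0:ℝ) < ((n + 1 : ℕ) : ℝ) := by positivity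
    have e1 : uu κ (m + 1) = ((m + 1 : ℕ) : ℝ) ^ κ * ((m + 1 : ℕ) : ℝ) ^ (-(1 + 4 * κ)) := by
      unfold uu
      rw [← Real.rpow_add hm0]; congr 1; ring
    have e2 : uu κ (n + 1) = ((n + 1 : ℕ) : ℝ) ^ κ * ((n + 1 : ℕ) : ℝ) ^ (-(1 + 4 * κ)) := by
      unfold uu
      rw [← Real.rpow_add hn0]; congr 1; ring
    have e3 : fr m n = Real.log ((m + 1 : ℕ) : ℝ) - Real.log ((n + 1 : ℕ) : ℝ) := by
      unfold fr
      rw [Real.log_div (by positivity) (by positivity)]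
      push_cast; rfl
    rw [← h3, ← uu_succ, ← uu_succ, e3]
    set lg := |Real.log ((m + 1 : ℕ) : ℝ) - Real.log ((n + 1 : ℕ) : ℝ)| with hlg
    have e4 : ((m + 1 : ℕ) : ℝ) ^ κ * ((n + 1 : ℕ) : ℝ) ^ κ * (((m + 1 : ℕ) : ℝ) ^ (-(1 + 4 * κ)) * ((n + 1 : ℕ) : ℝ) ^ (-(1 + 4 * κ))) *
        (2 / lg) = 2 * (uu κ (m + 1) * uu κ (n + 1) * (1 / lg)) := by
      rw [e1, e2]; ring
    rw [e4] at h4
    nlinarith

/-- the sum of the weights -/
def sS (δ : ℝ) : ℝ := ∑' p : ℕ × ℕ, wfr δ p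

lemma sS_nonneg (δ : ℝ) : 0 ≤ sS δ := tsum_nonneg (wfr_nonneg δ)

/-- the quadratic terms -/
def sqT (δ : ℝ) (q : ℕ × ℕ → ℝ) (p : ℕ × ℕ) : ℝ :=
  if p.1 = p.2 then 0 else (wI δ p.1 * wI δ p.2) * (1 + 1 / |fr p.1 p.2|)⁻¹ * q p

/-- Cauchy-Schwarz -/
lemma Lam_sq {δ : ℝ} (hδ : 0 < δ) (ν : Measure ℝ) [IsProbabilityMeasure ν] {c : ℝ} (hc : 0 < c) {q : ℕ × ℕ → ℝ}
    (hq : ∀ p : ℕ × ℕ, p.1 ≠ p.2 → ‖cc ν (fr p.1 p.2)‖ ^ 2 ≤ q p) (hs : Summable (sqT δ q)) (hle : ∑' p, sqT δ q p ≤ c) :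
    Lam δ ν ≤ (sS δ + 1) / 2 * √c := by
  have hr : 0 < √c := Real.sqrt_pos.2 hc
  have hrr : √c * √c = c := Real.mul_self_sqrt hc.le
  have h1 : ∀ p, lamT δ ν p ≤ √c / 2 * wfr δ p + (2 * √c)⁻¹ * sqT δ q p := by
    intro p
    unfold lamT wfr sqT
    split_ifs with h
    · simp
    · have w1 := wI_pos δ p.1
      have w2 := wI_pos δ p.2
      have w3 := hq p h
      obtain ⟨g, hg⟩ : ∃ g, g = 1 + 1 / |fr p.1 p.2| := ⟨_, rfl⟩
      have hg0 : 0 < g := by rw [hg]; positivity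
      rw [← hg]
      obtain ⟨x, hx⟩ : ∃ x, x = ‖cc ν (fr p.1 p.2)‖ := ⟨_, rfl⟩
      rw [← hx] at w3 ⊢
      obtain ⟨w, hw⟩ : ∃ w, w = wI δ p.1 * wI δ p.2 := ⟨_, rfl⟩
      have hw0 : 0 < w := by rw [hw]; positivity
      rw [← hw]
      have h2 : x ≤ √c / 2 * g + (2 * √c)⁻¹ * (g⁻¹ * q p) := by
        have h3 : x ≤ √c / 2 * g + (2 * √c)⁻¹ * (g⁻¹ * x ^ 2) := by
          have e : √c / 2 * g + (2 * √c)⁻¹ * (g⁻¹ * x ^ 2) - x = (√c * g - x) ^ 2 / (2 * √c * g) := by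
            field_simp
            ring
          have : 0 ≤ (√c * g - x) ^ 2 / (2 * √c * g) := by positivity
          linarith
        have h4 : (2 * √c)⁻¹ * (g⁻¹ * x ^ 2) ≤ (2 * √c)⁻¹ * (g⁻¹ * q p) := by gcongr
        linarith
      calc w * x ≤ w * (√c / 2 * g + (2 * √c)⁻¹ * (g⁻¹ * q p)) := by gcongr
        _ = _ := by ring
  have h2 : Summable fun p => √c / 2 * wfr δ p + (2 * √c)⁻¹ * sqT δ q p :=
    ((wfr_summable hδ).mul_left _).add (hs.mul_left _)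
  have h3 := (lamT_summable hδ ν).tsum_le_tsum h1 h2
  rw [Summable.tsum_add ((wfr_summable hδ).mul_left _) (hs.mul_left _), tsum_mul_left, tsum_mul_left] at h3
  unfold Lam
  refine h3.trans ?_
  have h4 : (2 * √c)⁻¹ * ∑' p, sqT δ q p ≤ (2 * √c)⁻¹ * c := by gcongr
  have h5 : (2 * √c)⁻¹ * c = √c / 2 := by
    nth_rewrite 2 [← hrr]
    field_simp
  unfold sS
  rw [h5] at h4
  linarith

lemma unif_prob {J : ℕ} (hJ : 1 ≤ J) (t : ℕ → ℝ) : IsProbabilityMeasure (unif J t) := by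
  have hJ0 : (J : ℝ≥0∞) ≠ 0 := by exact_mod_cast (by omega : J ≠ 0)
  refine ⟨?_⟩
  unfold unif
  rw [Measure.smul_apply, Measure.finsetSum_apply]
  simp only [measure_univ, Finset.sum_const, Finset.card_range, nsmul_eq_mul, mul_one, smul_eq_mul]
  exact ENNReal.inv_mul_cancel hJ0 (ENNReal.natCast_ne_top J)

lemma cc_unif (J : ℕ) (t : ℕ → ℝ) (l : ℝ) :
    ‖cc (unif J t) l‖ = (J : ℝ)⁻¹ * ‖∑ j ∈ Finset.range J, exp (I * ((t j * l : ℝ) : ℂ))‖ := by
  unfold cc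
  rw [integral_unif, norm_mul, norm_inv, Complex.norm_natCast]

/-! ### arithmetic progressions -/

/-- the kernel of the arithmetic progressions of at most `2^R` terms -/
def kk (R : ℕ) (y : ℝ) : ℝ := if y = 0 then 2 ^ R else min (2 ^ R) (1 / y)

lemma sum_kk {R J : ℕ} (hJ : J ≤ 2 ^ R) (c x : ℝ) :
    ‖∑ j ∈ Finset.range J, exp (I * ((c + j * x : ℝ) : ℂ))‖ ≤ kk R |Real.sin (x / 2)| := by
  have h1 : ‖∑ j ∈ Finset.range J, exp (I * ((c + j * x : ℝ) : ℂ))‖ ≤ 2 ^ R := by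
    refine (norm_sum_le _ _).trans ?_
    have h2 : ∀ j ∈ Finset.range J, ‖exp (I * ((c + j * x : ℝ) : ℂ))‖ = 1 := fun j _ => by
      rw [mul_comm, Complex.norm_exp_ofReal_mul_I]
    rw [Finset.sum_congr rfl h2]
    simp only [Finset.sum_const, Finset.card_range, nsmul_eq_mul, mul_one]
    exact_mod_cast hJ
  unfold kk
  split_ifs with h
  · exact h1
  · exact le_min h1 (geom_bound J c x (by simpa using h))

lemma kk_layers (R : ℕ) {y : ℝ} (h0 : 0 ≤ y) (h1 : y ≤ 1) :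
    kk R y ≤ ∑ r ∈ Finset.range (R + 1), 2 ^ r * (if y < 2 * (2 ^ r)⁻¹ then 1 else 0) := by
  have hk : kk R y ≤ 2 ^ R := by
    unfold kk
    split_ifs
    · exact le_rfl
    · exact min_le_left _ _
  have hterm : ∀ r ∈ Finset.range (R + 1), (0:ℝ) ≤ 2 ^ r * (if y < 2 * (2 ^ r)⁻¹ then 1 else 0) := by
    intro r _
    split_ifs <;> positivity
  rcases lt_or_ge y ((2 ^ R)⁻¹) with h | h
  · refine le_trans ?_ (Finset.single_le_sum hterm (Finset.mem_range.2 (Nat.lt_succ_self R)))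
    have : y < 2 * (2 ^ R)⁻¹ := by
      have : (0:ℝ) < (2 ^ R)⁻¹ := by positivity
      linarith
    rw [if_pos this, mul_one]
    exact hk
  · have hy : 0 < y := lt_of_lt_of_le (by positivity) h
    have hex : ∃ r : ℕ, ((2:ℝ) ^ r)⁻¹ ≤ y := ⟨R, h⟩
    classical
    set r := Nat.find hex with hr
    have hr1 : ((2:ℝ) ^ r)⁻¹ ≤ y := Nat.find_spec hex
    have hrR : r ≤ R := Nat.find_min' hex h
    have hr2 : y < 2 * ((2:ℝ) ^ r)⁻¹ := by
      rcases Nat.eq_zero_or_pos r with h2 | h2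
      · rw [h2]; norm_num; linarith
      · have h3 := Nat.find_min hex (m := r - 1) (by omega)
        rw [not_le] at h3
        have e : 2 * ((2:ℝ) ^ r)⁻¹ = ((2:ℝ) ^ (r - 1))⁻¹ := by
          have e2 : (2:ℝ) ^ r = 2 * 2 ^ (r - 1) := by
            rw [← pow_succ', Nat.sub_add_cancel h2]
          rw [e2]
          field_simp
        rw [e]; exact h3
    refine le_trans ?_ (Finset.single_le_sum hterm (Finset.mem_range.2 (Nat.lt_succ_of_le hrR)))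
    rw [if_pos hr2, mul_one]
    unfold kk
    rw [if_neg hy.ne']
    refine (min_le_right _ _).trans ?_
    rw [div_le_iff₀ hy]
    have := mul_le_mul_of_nonneg_left hr1 (show (0:ℝ) ≤ 2 ^ r by positivity)
    rwa [mul_inv_cancel₀ (by positivity)] at this

/-- the bad spacings of a layer -/
def badS (p : (ℕ × ℕ) × ℕ) : Set ℝ := {h | |Real.sin (|fr p.1.1 p.1.2| * h / 2)| < 2 * (2 ^ p.2)⁻¹}

lemma badS_meas (p : (ℕ × ℕ) × ℕ) : MeasurableSet (badS p) :=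
  measurableSet_lt (by fun_prop) measurable_const

/-- the weight of a layer -/
def layW (δ ε : ℝ) (p : (ℕ × ℕ) × ℕ) : ℝ :=
  if p.1.1 = p.1.2 then 0 else wI δ p.1.1 * wI δ p.1.2 * (((2:ℝ) ^ (-ε)) ^ p.2 * 2 ^ p.2)

lemma layW_nonneg (δ ε : ℝ) (p : (ℕ × ℕ) × ℕ) : 0 ≤ layW δ ε p := by
  unfold layW
  have h1 := (wI_pos δ p.1.1).le
  have h2 := (wI_pos δ p.1.2).le
  split_ifs
  · exact le_rfl
  · positivity

/-- the terms of the series of the layers -/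
def layT (δ ε : ℝ) (p : (ℕ × ℕ) × ℕ) (h : ℝ) : ℝ≥0∞ :=
  ENNReal.ofReal (layW δ ε p) * (badS p).indicator 1 h

lemma layT_meas (δ ε : ℝ) (p : (ℕ × ℕ) × ℕ) : Measurable (layT δ ε p) := by
  unfold layT
  exact (measurable_one.indicator (badS_meas p)).const_mul _

lemma lay_int {δ ε : ℝ} {B : ℝ} (hB : 0 ≤ B) (p : (ℕ × ℕ) × ℕ) :
    ∫⁻ h in Icc 0 B, layT δ ε p h ≤ ENNReal.ofReal ((4 * Real.pi * (B + 2)) * (wfr δ p.1 * ((2:ℝ) ^ (-ε)) ^ p.2)) := by
  have hpi := Real.pi_pos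
  unfold layT
  rw [lintegral_const_mul _ (measurable_one.indicator (badS_meas p)), lintegral_indicator_one (badS_meas p),
    Measure.restrict_apply (badS_meas p)]
  by_cases h : p.1.1 = p.1.2
  · have : layW δ ε p = 0 := by unfold layW; rw [if_pos h]
    rw [this]
    simp
  · have hl : 0 < |fr p.1.1 p.1.2| := abs_pos.2 (fr_ne h)
    have h1 : badS p ∩ Icc 0 B ⊆ bad B |fr p.1.1 p.1.2| (2 * (2 ^ p.2)⁻¹) := by
      rintro x ⟨hx1, hx2⟩
      exact ⟨hx2, hx1⟩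
    have h2 := (measure_mono h1).trans (bad_vol hB hl (show (0:ℝ) ≤ 2 * (2 ^ p.2)⁻¹ by positivity))
    refine (mul_le_mul_right h2 _).trans ?_
    rw [← ENNReal.ofReal_mul (layW_nonneg _ _ _)]
    refine ENNReal.ofReal_le_ofReal ?_
    unfold layW wfr
    rw [if_neg h, if_neg h]
    have w1 := wI_pos δ p.1.1
    have w2 := wI_pos δ p.1.2
    have h3 : B + 2 / |fr p.1.1 p.1.2| ≤ (B + 2) * (1 + 1 / |fr p.1.1 p.1.2|) := by
      have : 0 ≤ 1 / |fr p.1.1 p.1.2| := by positivity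
      have e : 2 / |fr p.1.1 p.1.2| = 2 * (1 / |fr p.1.1 p.1.2|) := by ring
      rw [e]
      nlinarith
    calc wI δ p.1.1 * wI δ p.1.2 * (((2:ℝ) ^ (-ε)) ^ p.2 * 2 ^ p.2) *
          (2 * Real.pi * (2 * (2 ^ p.2)⁻¹) * (B + 2 / |fr p.1.1 p.1.2|))
        = 4 * Real.pi * (wI δ p.1.1 * wI δ p.1.2 * ((2:ℝ) ^ (-ε)) ^ p.2) * (B + 2 / |fr p.1.1 p.1.2|) := by
          field_simp
          ring
      _ ≤ 4 * Real.pi * (wI δ p.1.1 * wI δ p.1.2 * ((2:ℝ) ^ (-ε)) ^ p.2) * ((B + 2) * (1 + 1 / |fr p.1.1 p.1.2|)) := by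
          gcongr
      _ = _ := by ring

lemma lay_ae {δ ε : ℝ} (hδ : 0 < δ) (hε : 0 < ε) : ∀ᵐ h : ℝ, 0 < h → ∑' p, layT δ ε p h ≠ ⊤ := by
  have h1 : ∀ N : ℕ, ∀ᵐ h : ℝ, h ∈ Icc (0:ℝ) N → ∑' p, layT δ ε p h ≠ ⊤ := by
    intro N
    have h2 : ∫⁻ h in Icc (0:ℝ) N, ∑' p, layT δ ε p h ≠ ⊤ := by
      rw [lintegral_tsum fun p => (layT_meas δ ε p).aemeasurable]
      refine ne_top_of_le_ne_top ?_ (ENNReal.tsum_le_tsum fun p => lay_int (by positivity) p)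
      refine Summable.tsum_ofReal_ne_top (Summable.mul_left _ ?_)
      exact (wfr_summable hδ).mul_of_nonneg (summable_geometric_of_lt_one (by positivity)
        (Real.rpow_lt_one_of_one_lt_of_neg (by norm_num) (by linarith))) (wfr_nonneg δ) (fun r => by positivity)
    have h4 := ae_lt_top (Measurable.tsum fun p => layT_meas δ ε p) h2
    rw [ae_restrict_iff' measurableSet_Icc] at h4
    filter_upwards [h4] with h h5 h6
    exact (h5 h6).ne
  rw [← ae_all_iff] at h1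
  filter_upwards [h1] with h h2 h3
  obtain ⟨N, hN⟩ := exists_nat_ge h
  exact h2 N ⟨h3.le, hN⟩

/-- almost every arithmetic progression of heights -/
theorem ap_lam {δ ε : ℝ} (hδ : 0 < δ) (hε : 0 < ε) :
    ∀ᵐ h : ℝ, 0 < h → ∃ C : ℝ, 0 ≤ C ∧ ∀ J : ℕ, 1 ≤ J → ∀ x : ℝ,
      Lam δ (unif J (fun j => x + j * h)) ≤ C * (J : ℝ) ^ (ε - 1) := by
  filter_upwards [lay_ae hδ hε] with h hh hpos
  have hfin := hh hpos
  obtain ⟨C, hC⟩ : ∃ C : ℝ, C = (∑' p, layT δ ε p h).toReal := ⟨_, rfl⟩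
  have hC0 : 0 ≤ C := by rw [hC]; exact ENNReal.toReal_nonneg
  have hCe : ∑' p, layT δ ε p h = ENNReal.ofReal C := by rw [hC, ENNReal.ofReal_toReal hfin]
  refine ⟨C * 2 ^ ε, by positivity, fun J hJ x => ?_⟩
  have hJ0 : (0:ℝ) < J := by exact_mod_cast hJ
  have := unif_prob hJ (fun j => x + j * h)
  set R := Nat.log 2 J + 1 with hR
  have hlt : J < 2 ^ R := Nat.lt_pow_succ_log_self (by norm_num) _
  have hle : 2 ^ R ≤ 2 * J := by
    rw [hR, pow_succ]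
    have := Nat.pow_log_le_self 2 (show J ≠ 0 by omega)
    omega
  have hler : (2:ℝ) ^ R ≤ 2 * J := by exact_mod_cast hle
  have hr0 : 0 < (2:ℝ) ^ (-ε) := by positivity
  have hr1 : (2:ℝ) ^ (-ε) ≤ 1 := Real.rpow_le_one_of_one_le_of_nonpos (by norm_num) (by linarith)
  set c : ℝ := (J:ℝ)⁻¹ * (((2:ℝ) ^ (-ε)) ^ R)⁻¹ with hc
  have hc0 : 0 < c := by positivity
  have key : ∀ q : ℕ × ℕ, ENNReal.ofReal (lamT δ (unif J (fun j => x + j * h)) q) ≤
      ENNReal.ofReal c * ∑' r : ℕ, layT δ ε (q, r) h := by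
    intro q
    unfold lamT
    split_ifs with hq
    · simp
    · have w1 := wI_pos δ q.1
      have w2 := wI_pos δ q.2
      set y := |Real.sin (|fr q.1 q.2| * h / 2)| with hy
      have hy0 : 0 ≤ y := abs_nonneg _
      have hy1 : y ≤ 1 := Real.abs_sin_le_one _
      have h3 : ‖cc (unif J (fun j => x + j * h)) (fr q.1 q.2)‖ ≤ (J:ℝ)⁻¹ * kk R y := by
        rw [cc_unif]
        refine mul_le_mul_of_nonneg_left ?_ (by positivity)
        have h4 := sum_kk hlt.le (x * fr q.1 q.2) (h * fr q.1 q.2)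
        have e1 : |Real.sin (h * fr q.1 q.2 / 2)| = y := by
          rw [hy]
          rcases abs_cases (fr q.1 q.2) with ⟨e, _⟩ | ⟨e, _⟩
          · rw [e]; congr 2; ring
          · rw [e]
            have : -fr q.1 q.2 * h / 2 = -(h * fr q.1 q.2 / 2) := by ring
            rw [this, Real.sin_neg, abs_neg]
        rw [e1] at h4
        refine le_trans (le_of_eq ?_) h4
        congr 1
        refine Finset.sum_congr rfl fun j _ => ?_
        congr 3; ring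
      have h5 := kk_layers R hy0 hy1
      have h6 : wI δ q.1 * wI δ q.2 * ‖cc (unif J (fun j => x + j * h)) (fr q.1 q.2)‖ ≤
          c * ∑ r ∈ Finset.range (R + 1), layW δ ε (q, r) * (if y < 2 * (2 ^ r)⁻¹ then 1 else 0) := by
        calc wI δ q.1 * wI δ q.2 * ‖cc (unif J (fun j => x + j * h)) (fr q.1 q.2)‖
            ≤ wI δ q.1 * wI δ q.2 * ((J:ℝ)⁻¹ * ∑ r ∈ Finset.range (R + 1), 2 ^ r * (if y < 2 * (2 ^ r)⁻¹ then 1 else 0)) := by
              refine mul_le_mul_of_nonneg_left (h3.trans ?_) (by positivity)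
              gcongr
          _ = ∑ r ∈ Finset.range (R + 1), (wI δ q.1 * wI δ q.2 * (J:ℝ)⁻¹) * (2 ^ r * (if y < 2 * (2 ^ r)⁻¹ then 1 else 0)) := by
              rw [← mul_assoc, Finset.mul_sum]
          _ ≤ ∑ r ∈ Finset.range (R + 1), c * (layW δ ε (q, r) * (if y < 2 * (2 ^ r)⁻¹ then 1 else 0)) := by
              refine Finset.sum_le_sum fun r hr => ?_
              have hrR : r ≤ R := by have := Finset.mem_range.1 hr; omega
              have hpow : ((2:ℝ) ^ (-ε)) ^ R ≤ ((2:ℝ) ^ (-ε)) ^ r := pow_le_pow_of_le_one hr0.le hr1 hrR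
              have hone : 1 ≤ (((2:ℝ) ^ (-ε)) ^ R)⁻¹ * ((2:ℝ) ^ (-ε)) ^ r := by
                rw [inv_mul_eq_div, one_le_div (by positivity)]; exact hpow
              have hi : (0:ℝ) ≤ (if y < 2 * (2 ^ r)⁻¹ then 1 else 0) := by split_ifs <;> norm_num
              unfold layW
              simp only
              rw [if_neg hq, hc]
              have hb : 0 ≤ (wI δ q.1 * wI δ q.2 * (J:ℝ)⁻¹) * (2 ^ r * (if y < 2 * (2 ^ r)⁻¹ then (1:ℝ) else 0)) := by positivity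
              calc (wI δ q.1 * wI δ q.2 * (J:ℝ)⁻¹) * (2 ^ r * (if y < 2 * (2 ^ r)⁻¹ then 1 else 0))
                  = ((wI δ q.1 * wI δ q.2 * (J:ℝ)⁻¹) * (2 ^ r * (if y < 2 * (2 ^ r)⁻¹ then 1 else 0))) * 1 := (mul_one _).symm
                _ ≤ ((wI δ q.1 * wI δ q.2 * (J:ℝ)⁻¹) * (2 ^ r * (if y < 2 * (2 ^ r)⁻¹ then 1 else 0))) *
                    ((((2:ℝ) ^ (-ε)) ^ R)⁻¹ * ((2:ℝ) ^ (-ε)) ^ r) := mul_le_mul_of_nonneg_left hone hb
                _ = _ := by ring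
          _ = _ := by rw [Finset.mul_sum]
      refine (ENNReal.ofReal_le_ofReal h6).trans ?_
      rw [ENNReal.ofReal_mul hc0.le]
      refine mul_le_mul_right ?_ _
      rw [ENNReal.ofReal_sum_of_nonneg (fun r _ => mul_nonneg (layW_nonneg _ _ _) (by split_ifs <;> norm_num))]
      refine le_trans (le_of_eq ?_) (ENNReal.sum_le_tsum (Finset.range (R + 1)))
      refine Finset.sum_congr rfl fun r _ => ?_
      rw [ENNReal.ofReal_mul (layW_nonneg _ _ _)]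
      unfold layT
      congr 1
      by_cases hb : h ∈ badS (q, r)
      · rw [Set.indicator_of_mem hb]
        have hb' : y < 2 * (2 ^ r)⁻¹ := hb
        rw [if_pos hb']
        simp
      · rw [Set.indicator_of_notMem hb]
        have hb' : ¬ y < 2 * (2 ^ r)⁻¹ := hb
        rw [if_neg hb']
        simp
  have hsum : ∑' q : ℕ × ℕ, ENNReal.ofReal (lamT δ (unif J (fun j => x + j * h)) q) ≤ ENNReal.ofReal (c * C) := by
    refine (ENNReal.tsum_le_tsum key).trans ?_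
    rw [ENNReal.tsum_mul_left, ENNReal.ofReal_mul hc0.le, ← hCe]
    refine mul_le_mul_right (le_of_eq ?_) _
    exact (ENNReal.tsum_prod' (f := fun p : (ℕ × ℕ) × ℕ => layT δ ε p h)).symm
  rw [← ENNReal.ofReal_tsum_of_nonneg (lamT_nonneg _ _) (lamT_summable hδ _),
    ENNReal.ofReal_le_ofReal_iff (by positivity)] at hsum
  refine hsum.trans ?_
  have e1 : (((2:ℝ) ^ (-ε)) ^ R)⁻¹ = ((2:ℝ) ^ R) ^ ε := by
    rw [Real.rpow_neg (by norm_num), inv_pow, inv_inv, ← Real.rpow_natCast, ← Real.rpow_natCast,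
      ← Real.rpow_mul (by norm_num), ← Real.rpow_mul (by norm_num), mul_comm]
  have e2 : ((2:ℝ) ^ R) ^ ε ≤ 2 ^ ε * (J:ℝ) ^ ε := by
    rw [← Real.mul_rpow (by norm_num) hJ0.le]
    exact Real.rpow_le_rpow (by positivity) hler hε.le
  have e3 : (J:ℝ) ^ (ε - 1) = (J:ℝ)⁻¹ * (J:ℝ) ^ ε := by
    rw [Real.rpow_sub hJ0, Real.rpow_one, div_eq_inv_mul]
  rw [hc, e1, e3]
  calc (J:ℝ)⁻¹ * ((2:ℝ) ^ R) ^ ε * C ≤ (J:ℝ)⁻¹ * (2 ^ ε * (J:ℝ) ^ ε) * C := by gcongr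
    _ = _ := by ring

/-! ### dilates of separated sequences -/

lemma tm_ae {a : ℕ → ℝ} (ha : U325.DS.Sep a) {δ : ℝ} (hδ : 0 < δ) :
    ∀ᵐ h : ℝ, ∃ C : ℝ, 0 ≤ C ∧ ∑' p : ℕ × ℕ × ℕ, ENNReal.ofReal (U325.DS.tm a δ p h) ≤ ENNReal.ofReal C := by
  have h1 : ∀ N : ℕ, ∀ᵐ h : ℝ, h ∈ Set.Ioc (-(N:ℝ)) N →
      ∃ C : ℝ, 0 ≤ C ∧ ∑' p : ℕ × ℕ × ℕ, ENNReal.ofReal (U325.DS.tm a δ p h) ≤ ENNReal.ofReal C := by
    intro N
    have h2 := U325.DS.series ha hδ (X := N) (by positivity)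
    have h3 : Measurable fun h : ℝ => ∑' p : ℕ × ℕ × ℕ, ENNReal.ofReal (U325.DS.tm a δ p h) :=
      Measurable.tsum fun p => (U325.DS.tm_cont a δ p).measurable.ennreal_ofReal
    have h4 := ae_lt_top h3 h2
    rw [ae_restrict_iff' measurableSet_Ioc] at h4
    filter_upwards [h4] with h h5 h6
    refine ⟨(∑' p : ℕ × ℕ × ℕ, ENNReal.ofReal (U325.DS.tm a δ p h)).toReal, ENNReal.toReal_nonneg, ?_⟩
    rw [ENNReal.ofReal_toReal (h5 h6).ne]
  rw [← ae_all_iff] at h1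
  filter_upwards [h1] with h h2
  obtain ⟨N, hN⟩ := exists_nat_gt |h|
  rw [abs_lt] at hN
  exact h2 N ⟨hN.1, hN.2.le⟩

/-- almost every dilate of a separated sequence -/
theorem dil_lam {a : ℕ → ℝ} (ha : ∀ j, a j + 1 ≤ a (j + 1)) {δ : ℝ} (hδ : 0 < δ) :
    ∀ᵐ h : ℝ, ∃ C : ℝ, 0 ≤ C ∧ ∀ u J : ℕ, 1 ≤ J →
      Lam δ (unif J (fun j => h * a (u + j))) ≤ C * ((J : ℝ)⁻¹ * ((u + J : ℕ) : ℝ) ^ ((1 + δ) / 2)) := by
  filter_upwards [tm_ae ha hδ] with h ⟨C, hC, hb⟩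
  refine ⟨(sS δ + 1) / 2 * √(4 * (C + 1) * 2 ^ (1 + δ)), by have := sS_nonneg δ; positivity, fun u J hJ => ?_⟩
  have hJ0 : (0:ℝ) < J := by exact_mod_cast hJ
  have hpr := unif_prob hJ (fun j => h * a (u + j))
  set R := Nat.log 2 (u + J) + 1 with hR
  have hR0 : (0:ℝ) < R := by rw [hR]; positivity
  have hlt : u + J < 2 ^ R := Nat.lt_pow_succ_log_self (by norm_num) _
  have hle : 2 ^ R ≤ 2 * (u + J) := by
    rw [hR, pow_succ]
    have := Nat.pow_log_le_self 2 (show u + J ≠ 0 by omega)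
    omega
  have hler : (2:ℝ) ^ R ≤ 2 * ((u + J : ℕ) : ℝ) := by exact_mod_cast hle
  have hr0 : 0 < (2:ℝ) ^ (-δ) := by positivity
  have hwR : 0 < U325.DS.wR δ R := by unfold U325.DS.wR; positivity
  set q : ℕ × ℕ → ℝ := fun p => ((J:ℝ)⁻¹) ^ 2 * (4 * (R * U325.DS.Q (U325.DS.ch a (fr p.1 p.2) h) R)) with hq
  have hqb : ∀ p : ℕ × ℕ, p.1 ≠ p.2 → ‖cc (unif J (fun j => h * a (u + j))) (fr p.1 p.2)‖ ^ 2 ≤ q p := by
    intro p _
    rw [cc_unif, mul_pow, hq]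
    refine mul_le_mul_of_nonneg_left ?_ (by positivity)
    have h1 := U325.DS.window_sq (U325.DS.ch a (fr p.1 p.2) h) hlt
    refine le_trans (le_of_eq ?_) h1
    congr 2
    refine Finset.sum_congr rfl fun j _ => ?_
    unfold U325.DS.ch
    congr 3
    ring
  set c₁ : ℝ := ((J:ℝ)⁻¹) ^ 2 * (4 * R) * (U325.DS.wR δ R)⁻¹ with hc₁
  have hc₁0 : 0 < c₁ := by positivity
  have hterm : ∀ p : ℕ × ℕ, ENNReal.ofReal (sqT δ q p) = ENNReal.ofReal c₁ * ENNReal.ofReal (U325.DS.tm a δ (R, p) h) := by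
    intro p
    rw [← ENNReal.ofReal_mul hc₁0.le]
    congr 1
    unfold sqT U325.DS.tm
    split_ifs with hp
    · simp
    · rw [hq, hc₁]
      field_simp
  have hsq0 : ∀ p, 0 ≤ sqT δ q p := by
    intro p
    unfold sqT
    have h1 := (wI_pos δ p.1).le
    have h2 := (wI_pos δ p.2).le
    have h3 : 0 ≤ q p := by
      rw [hq]
      have := U325.DS.Q_nonneg (U325.DS.ch a (fr p.1 p.2) h) R
      positivity
    split_ifs
    · exact le_rfl
    · positivity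
  have htot : ∑' p, ENNReal.ofReal (sqT δ q p) ≤ ENNReal.ofReal (c₁ * (C + 1)) := by
    simp only [hterm]
    rw [ENNReal.tsum_mul_left, ENNReal.ofReal_mul hc₁0.le]
    refine mul_le_mul_right ?_ _
    refine le_trans ?_ (hb.trans (ENNReal.ofReal_le_ofReal (by linarith)))
    rw [ENNReal.tsum_prod' (f := fun p : ℕ × ℕ × ℕ => ENNReal.ofReal (U325.DS.tm a δ p h))]
    exact ENNReal.le_tsum (f := fun r : ℕ => ∑' p : ℕ × ℕ, ENNReal.ofReal (U325.DS.tm a δ (r, p) h)) R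
  have hs : Summable (sqT δ q) := by
    have h1 : ∑' p, ENNReal.ofReal (sqT δ q p) ≠ ⊤ := ne_top_of_le_ne_top ENNReal.ofReal_ne_top htot
    have h2 := ENNReal.summable_toReal h1
    refine h2.congr fun p => ?_
    rw [ENNReal.toReal_ofReal (hsq0 p)]
  have hle2 : ∑' p, sqT δ q p ≤ c₁ * (C + 1) := by
    rw [← ENNReal.ofReal_tsum_of_nonneg hsq0 hs, ENNReal.ofReal_le_ofReal_iff
      (show 0 ≤ c₁ * (C + 1) by positivity)] at htot
    exact htot
  have hmain := Lam_sq hδ (unif J (fun j => h * a (u + j))) (c := c₁ * (C + 1)) (by positivity) hqb hs hle2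
  refine hmain.trans ?_
  have hS := sS_nonneg δ
  rw [mul_assoc ((sS δ + 1) / 2)]
  refine mul_le_mul_of_nonneg_left ?_ (show 0 ≤ (sS δ + 1) / 2 by positivity)
  have hU0 : (0:ℝ) < ((u + J : ℕ) : ℝ) := by
    have : 0 < u + J := by omega
    exact_mod_cast this
  have e1 : c₁ * (C + 1) ≤ (4 * (C + 1) * 2 ^ (1 + δ)) * ((J:ℝ)⁻¹ * ((u + J : ℕ) : ℝ) ^ ((1 + δ) / 2)) ^ 2 := by
    have e2 : (4 * (R:ℝ)) * (U325.DS.wR δ R)⁻¹ = 4 * ((2:ℝ) ^ R) ^ (1 + δ) := by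
      unfold U325.DS.wR
      have e3 : (2:ℝ) ^ (-δ) = ((2:ℝ) ^ δ)⁻¹ := Real.rpow_neg (by norm_num) _
      have e4 : ((2:ℝ) ^ R) ^ (1 + δ) = ((2:ℝ) ^ R) * ((2:ℝ) ^ δ) ^ R := by
        rw [Real.rpow_add (by positivity), Real.rpow_one, ← Real.rpow_natCast, ← Real.rpow_natCast,
          ← Real.rpow_mul (by norm_num), ← Real.rpow_mul (by norm_num)]
        congr 2
        ring
      rw [e3, e4, inv_pow]
      have p1 : 0 < ((2:ℝ) ^ δ) ^ R := by positivity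
      have p2 : 0 < (2:ℝ) ^ R := by positivity
      field_simp
    have e5 : ((2:ℝ) ^ R) ^ (1 + δ) ≤ 2 ^ (1 + δ) * ((u + J : ℕ) : ℝ) ^ (1 + δ) := by
      rw [← Real.mul_rpow (by norm_num) (by positivity)]
      exact Real.rpow_le_rpow (by positivity) hler (by linarith)
    have e6 : (((u + J : ℕ) : ℝ) ^ ((1 + δ) / 2)) ^ 2 = ((u + J : ℕ) : ℝ) ^ (1 + δ) := by
      rw [← Real.rpow_natCast, ← Real.rpow_mul (by positivity)]
      congr 1; push_cast; ring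
    rw [mul_pow, e6, hc₁]
    calc ((J:ℝ)⁻¹) ^ 2 * (4 * R) * (U325.DS.wR δ R)⁻¹ * (C + 1) = ((J:ℝ)⁻¹) ^ 2 * ((4 * R) * (U325.DS.wR δ R)⁻¹) * (C + 1) := by ring
      _ = ((J:ℝ)⁻¹) ^ 2 * (4 * ((2:ℝ) ^ R) ^ (1 + δ)) * (C + 1) := by rw [e2]
      _ ≤ ((J:ℝ)⁻¹) ^ 2 * (4 * (2 ^ (1 + δ) * ((u + J : ℕ) : ℝ) ^ (1 + δ))) * (C + 1) := by gcongr
      _ = _ := by ring
  refine (Real.sqrt_le_sqrt e1).trans (le_of_eq ?_)
  rw [Real.sqrt_mul (show 0 ≤ 4 * (C + 1) * 2 ^ (1 + δ) by positivity),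
    Real.sqrt_sq (show 0 ≤ (J:ℝ)⁻¹ * ((u + J : ℕ) : ℝ) ^ ((1 + δ) / 2) by positivity)]

/-! ### Frostman measures -/

/-- most dilates of a Frostman measure -/
theorem fro_lam {s : ℝ} (hs0 : 0 < s) (hs : s < 1) {K : ℝ} (hK : 0 ≤ K) {δ η : ℝ} (hδ : 0 < δ) (hη : 0 < η) :
    ∃ X₀ : ℝ, 1 ≤ X₀ ∧ ∀ X : ℝ, X₀ ≤ X → ∀ μ : Measure ℝ, U325.DS.Fro s K μ →
      ∃ A : Set ℝ, MeasurableSet A ∧ volume A ≤ ENNReal.ofReal (X ^ (1 - η)) ∧ ∀ T ∈ Set.Icc X (2 * X), T ∉ A →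
        Lam δ (μ.map (fun x => T * x)) ≤ (sS δ + 1) / 2 * X ^ (-(s / 2) + η) := by
  have t1 : Tendsto (fun X : ℝ => (U325.DS.cE s * K * 2 ^ (1 - s) * U325.DS.sW δ) * X ^ (-η)) atTop
      (𝓝 ((U325.DS.cE s * K * 2 ^ (1 - s) * U325.DS.sW δ) * 0)) :=
    (tendsto_rpow_neg_atTop hη).const_mul _
  rw [mul_zero] at t1
  obtain ⟨X₁, hX₁⟩ := eventually_atTop.mp (t1.eventually (gt_mem_nhds (show (0:ℝ) < 1 by norm_num)))
  refine ⟨max 1 X₁, le_max_left _ _, fun X hX μ hμ => ?_⟩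
  have hX1 : 1 ≤ X := (le_max_left _ _).trans hX
  have hX0 : 0 < X := by linarith
  have hXc := (hX₁ X ((le_max_right _ _).trans hX)).le
  have := hμ.prob
  set G : ℝ → ℝ≥0∞ := fun T => ∑' p : ℕ × ℕ, ENNReal.ofReal (U325.DS.tf μ δ p T) with hG
  have hGm : Measurable G := Measurable.tsum fun p => (U325.DS.tf_cont μ δ p).measurable.ennreal_ofReal
  set c : ℝ := X ^ (-s + 2 * η) with hc
  have hc0 : 0 < c := by rw [hc]; positivity
  refine ⟨{T | ENNReal.ofReal c ≤ G T} ∩ Set.Ioc (-(2 * X)) (2 * X),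
    (measurableSet_le measurable_const hGm).inter measurableSet_Ioc, ?_, ?_⟩
  · have h1 := U325.DS.mean_tf hs0 hs hK hμ (Y := 2 * X) (by positivity) hδ
    have h2 := mul_meas_ge_le_lintegral (μ := volume.restrict (Set.Ioc (-(2 * X)) (2 * X))) hGm (ENNReal.ofReal c)
    rw [Measure.restrict_apply (measurableSet_le measurable_const hGm)] at h2
    have h3 := h2.trans h1
    have h4 : U325.DS.cE s * K * (2 * X) ^ (1 - s) * U325.DS.sW δ ≤ c * X ^ (1 - η) := by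
      have e1 : (2 * X) ^ (1 - s) = 2 ^ (1 - s) * X ^ (1 - s) := Real.mul_rpow (by norm_num) hX0.le
      have e2 : X ^ (1 - s) = X ^ (-η) * (c * X ^ (1 - η)) := by
        rw [hc, ← Real.rpow_add hX0, ← Real.rpow_add hX0]
        congr 1; ring
      have e3 : 0 ≤ c * X ^ (1 - η) := by positivity
      calc U325.DS.cE s * K * (2 * X) ^ (1 - s) * U325.DS.sW δ =
          ((U325.DS.cE s * K * 2 ^ (1 - s) * U325.DS.sW δ) * X ^ (-η)) * (c * X ^ (1 - η)) := by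
            rw [e1, e2]; ring
        _ ≤ 1 * (c * X ^ (1 - η)) := by gcongr
        _ = _ := one_mul _
    have h5 := h3.trans (ENNReal.ofReal_le_ofReal h4)
    rw [ENNReal.ofReal_mul hc0.le] at h5
    exact (ENNReal.mul_le_mul_iff_right (by simpa using hc0) ENNReal.ofReal_ne_top).1 h5
  · intro T hT hTA
    have hT0 : 0 < T := by linarith [hT.1]
    have h1 : G T < ENNReal.ofReal c := by
      by_contra h
      rw [not_lt] at h
      exact hTA ⟨h, by constructor <;> linarith [hT.1, hT.2]⟩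
    have hme : MeasurableEmbedding (fun x : ℝ => T * x) := (Homeomorph.mulLeft₀ T hT0.ne').measurableEmbedding
    have hpr : IsProbabilityMeasure (μ.map (fun x : ℝ => T * x)) :=
      Measure.isProbabilityMeasure_map hme.measurable.aemeasurable
    set q : ℕ × ℕ → ℝ := fun p => ‖U325.DS.ft μ (T * fr p.1 p.2)‖ ^ 2 with hq
    have hqb : ∀ p : ℕ × ℕ, p.1 ≠ p.2 → ‖cc (μ.map (fun x : ℝ => T * x)) (fr p.1 p.2)‖ ^ 2 ≤ q p := by
      intro p _
      refine le_of_eq ?_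
      rw [hq]
      unfold cc U325.DS.ft
      rw [hme.integral_map]
      congr 2
      congr 1; funext x
      congr 3; ring
    have hterm : ∀ p : ℕ × ℕ, sqT δ q p = U325.DS.tf μ δ p T := by
      intro p
      unfold sqT U325.DS.tf
      rfl
    have hsq0 : ∀ p, 0 ≤ sqT δ q p := fun p => by rw [hterm]; exact U325.DS.tf_nonneg _ _ _ _
    have htot : ∑' p, ENNReal.ofReal (sqT δ q p) ≤ ENNReal.ofReal c := by
      simp only [hterm]
      exact h1.le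
    have hs : Summable (sqT δ q) := by
      have h1 : ∑' p, ENNReal.ofReal (sqT δ q p) ≠ ⊤ := ne_top_of_le_ne_top ENNReal.ofReal_ne_top htot
      have h2 := ENNReal.summable_toReal h1
      refine h2.congr fun p => ?_
      rw [ENNReal.toReal_ofReal (hsq0 p)]
    have hle2 : ∑' p, sqT δ q p ≤ c := by
      rw [← ENNReal.ofReal_tsum_of_nonneg hsq0 hs, ENNReal.ofReal_le_ofReal_iff hc0.le] at htot
      exact htot
    refine (Lam_sq hδ (μ.map (fun x : ℝ => T * x)) hc0 hqb hs hle2).trans (le_of_eq ?_)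
    congr 1
    rw [hc, Real.sqrt_eq_rpow, ← Real.rpow_mul hX0.le]
    congr 1; ring

end

end Pool.Agent.U183.HS
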