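import Pool.Agent.R461.HM.Meas
import Pool.Agent.U325.DS.Frost

set_option autoImplicit false

/-! Shifted moments for heights distributed by a probability measure, with the error in terms of the weighted sum of the
absolute values of the characters. -/

namespace Pool.Agent.U183.HS

open Complex Filter Topology MeasureTheory Set
open scoped ContDiff ENNReal
open Pool.Agent.W182.KO
open Pool.Agent.U325.DS (wI wI_pos wI_summable fr fr_ne)
open Pool.Agent.R461.HM (ch I0_prod K0_prod swap_meas meas_hasSum aa_zero)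

noncomputable section

/-- the character with frequency `l` -/
def cc (ν : Measure ℝ) (l : ℝ) : ℂ := ∫ t : ℝ, exp (I * ((t * l : ℝ) : ℂ)) ∂ν

/-- the terms of the weighted sum of the characters -/
def lamT (δ : ℝ) (ν : Measure ℝ) (p : ℕ × ℕ) : ℝ :=
  if p.1 = p.2 then 0 else wI δ p.1 * wI δ p.2 * ‖cc ν (fr p.1 p.2)‖

/-- the weighted sum of the characters -/
def Lam (δ : ℝ) (ν : Measure ℝ) : ℝ := ∑' p : ℕ × ℕ, lamT δ ν p

lemma cc_le (ν : Measure ℝ) [IsProbabilityMeasure ν] (l : ℝ) : ‖cc ν l‖ ≤ 1 := by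
  unfold cc
  refine (norm_integral_le_of_norm_le_const (C := 1) (Eventually.of_forall fun t => ?_)).trans ?_
  · rw [mul_comm, Complex.norm_exp_ofReal_mul_I]
  · simp

lemma wI_prod_summable {δ : ℝ} (hδ : 0 < δ) : Summable fun q : ℕ × ℕ => wI δ q.1 * wI δ q.2 :=
  (wI_summable hδ).mul_of_nonneg (wI_summable hδ) (fun m => (wI_pos δ m).le) (fun m => (wI_pos δ m).le)

lemma lamT_nonneg (δ : ℝ) (ν : Measure ℝ) (p : ℕ × ℕ) : 0 ≤ lamT δ ν p := by
  unfold lamT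
  have h1 := (wI_pos δ p.1).le
  have h2 := (wI_pos δ p.2).le
  split_ifs
  · exact le_rfl
  · positivity

lemma lamT_summable {δ : ℝ} (hδ : 0 < δ) (ν : Measure ℝ) [IsProbabilityMeasure ν] : Summable (lamT δ ν) := by
  refine Summable.of_nonneg_of_le (lamT_nonneg δ ν) (fun p => ?_) (wI_prod_summable hδ)
  have h1 := (wI_pos δ p.1).le
  have h2 := (wI_pos δ p.2).le
  unfold lamT
  split_ifs
  · positivity
  · exact mul_le_of_le_one_right (by positivity) (cc_le ν _)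

lemma Lam_nonneg (δ : ℝ) (ν : Measure ℝ) : 0 ≤ Lam δ ν := tsum_nonneg (lamT_nonneg δ ν)

lemma ch_norm (ν : Measure ℝ) (m n : ℕ) : ‖ch ν (m + 1, n + 1)‖ = ‖cc ν (fr m n)‖ := by
  have e : ch ν (m + 1, n + 1) = (starRingEnd ℂ) (cc ν (fr m n)) := by
    unfold ch cc
    rw [← integral_conj]
    congr 1; funext t
    rw [← Complex.exp_conj]
    congr 1
    unfold fr
    rw [Real.log_div (by positivity) (by positivity)]
    simp only [map_mul, Complex.conj_I, Complex.conj_ofReal]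
    push_cast
    ring
  rw [e, Complex.norm_conj]

variable {ξ1 κ R C1 C2 D1 D2 : ℝ} {ψ : ℝ → ℂ} {F1 F2 : ℂ → ℂ} {M : ℕ} {A B : ℕ → ℂ}

/-- the off-diagonal majorant -/
def off (κ : ℝ) (ν : Measure ℝ) (x : ℕ × ℕ) : ℝ := if x.1 = x.2 then 0 else uu κ x.1 * uu κ x.2 * ‖ch ν x‖

lemma off_nonneg (κ : ℝ) (ν : Measure ℝ) (x : ℕ × ℕ) : 0 ≤ off κ ν x := by
  unfold off
  have h1 := uu_nonneg κ x.1
  have h2 := uu_nonneg κ x.2
  split_ifs
  · exact le_rfl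
  · positivity

lemma uu_succ (κ : ℝ) (m : ℕ) : uu κ (m + 1) = wI (3 * κ) m := by
  unfold uu wI
  push_cast
  exact Real.rpow_neg (by positivity) _

lemma off_hasSum (hκ : 0 < κ) (ν : Measure ℝ) [IsProbabilityMeasure ν] : HasSum (off κ ν) (Lam (3 * κ) ν) := by
  have hi : Function.Injective (fun x : ℕ × ℕ => (x.1 + 1, x.2 + 1)) := by
    rintro ⟨a, b⟩ ⟨a', b'⟩ h
    simp only [Prod.mk.injEq] at h ⊢
    omega
  refine (hi.hasSum_iff ?_).1 ?_
  · rintro ⟨m, n⟩ hx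
    have h1 : m = 0 ∨ n = 0 := by
      by_contra hcon
      push Not at hcon
      exact hx ⟨(m - 1, n - 1), by simp only [Prod.mk.injEq]; omega⟩
    unfold off
    rcases h1 with h | h
    · subst h
      simp [uu_zero hκ]
    · subst h
      simp [uu_zero hκ]
  · have e : (off κ ν) ∘ (fun x : ℕ × ℕ => (x.1 + 1, x.2 + 1)) = lamT (3 * κ) ν := by
      funext ⟨m, n⟩
      simp only [Function.comp, off, lamT, ch_norm, uu_succ, add_left_inj]
    rw [e]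
    exact (lamT_summable (by positivity) ν).hasSum

theorem series_w (h : TF ξ1 ψ) (hκ : 0 < κ) (E1 : DD F1 A κ D1) (E2 : DD F2 B κ D2) :
    ∀ L : ℝ, 1 ≤ L → ∀ ν : Measure ℝ, IsProbabilityMeasure ν →
      ‖(∫ t, K0 ψ F1 F2 (1 + 4 * κ) L t ∂ν) - ((2 * Real.pi / L : ℝ) : ℂ) *
        ∑' n : ℕ, A n * B n / n * ψ (2 * Real.log n / L)‖ ≤ (D1 * D2) * Lam (3 * κ) ν * Dp ψ κ L := by
  have hD1 := E1.D_nonneg
  have hD2 := E2.D_nonneg
  intro L hL ν hν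
  have hDp : 0 ≤ Dp ψ κ L := Dp_nonneg L
  have hmain := meas_hasSum (ν := ν) h hκ E1 E2 hL
  set g : ℕ × ℕ → ℂ := fun x => if x.1 = x.2 then aa ψ A B κ L x else 0 with hg
  have hdi : Function.Injective (fun n : ℕ => ((n, n) : ℕ × ℕ)) := fun m n hmn => by
    simp only [Prod.mk.injEq] at hmn; exact hmn.1
  have hsd : Summable (fun n : ℕ => aa ψ A B κ L (n, n)) :=
    ((aa_summable hκ E1 E2 L).comp_injective hdi).of_norm
  have hgs : HasSum g (((2 * Real.pi / L : ℝ) : ℂ) *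
        ∑' n : ℕ, A n * B n / n * ψ (2 * Real.log n / L)) := by
    refine (hdi.hasSum_iff ?_).1 ?_
    · rintro ⟨m, n⟩ hx
      have : m ≠ n := by
        rintro rfl
        exact hx ⟨m, rfl⟩
      simp only [hg, this, if_false]
    · have e1 : g ∘ (fun n : ℕ => ((n, n) : ℕ × ℕ)) = fun n => aa ψ A B κ L (n, n) := by
        funext n
        simp only [Function.comp, hg, if_true]
      rw [e1]
      have e2 : (((2 * Real.pi / L : ℝ) : ℂ) * ∑' n : ℕ, A n * B n / n * ψ (2 * Real.log n / L)) =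
          ∑' n : ℕ, aa ψ A B κ L (n, n) := by
        rw [← tsum_mul_left]
        exact tsum_congr fun n => (aa_diag h hκ E1 hL n).symm
      rw [e2]
      exact hsd.hasSum
  have hdiff := hmain.sub hgs
  have hbd : ∀ x : ℕ × ℕ, ‖aa ψ A B κ L x * ch ν x - g x‖ ≤ (Dp ψ κ L * (D1 * D2)) * off κ ν x := by
    rintro ⟨m, n⟩
    have hR : 0 ≤ (Dp ψ κ L * (D1 * D2)) * off κ ν (m, n) := mul_nonneg (by positivity) (off_nonneg _ _ _)
    by_cases hmn : m = n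
    · subst hmn
      have e3 : ch ν (m, m) = 1 := by
        unfold ch
        simp
      simp only [hg, if_true, e3, mul_one, sub_self, norm_zero]
      exact hR
    · simp only [hg, hmn, if_false, sub_zero]
      rcases Nat.eq_zero_or_pos m with hm | hm
      · subst hm
        have : aa ψ A B κ L (0, n) = 0 := by unfold aa; simp [E1.A0]
        rw [this, zero_mul, norm_zero]; exact hR
      rcases Nat.eq_zero_or_pos n with hn | hn
      · subst hn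
        have : aa ψ A B κ L (m, 0) = 0 := by unfold aa; simp [E2.A0]
        rw [this, zero_mul, norm_zero]; exact hR
      have hm0 : (0:ℝ) < m := by exact_mod_cast hm
      have hn0 : (0:ℝ) < n := by exact_mod_cast hn
      have h2 := aa_le (ψ := ψ) (A := A) (B := B) (κ := κ) L (m, n)
      have h4 := E1.ptw m
      have h5 := E2.ptw n
      have e1 : uu κ m = (m : ℝ) ^ κ * (m : ℝ) ^ (-(1 + 4 * κ)) := by
        unfold uu
        rw [← Real.rpow_add hm0]; congr 1; ring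
      have e2 : uu κ n = (n : ℝ) ^ κ * (n : ℝ) ^ (-(1 + 4 * κ)) := by
        unfold uu
        rw [← Real.rpow_add hn0]; congr 1; ring
      have e3 : off κ ν (m, n) = uu κ m * uu κ n * ‖ch ν (m, n)‖ := by
        unfold off
        simp only [hmn, if_false]
      simp only at h2
      rw [norm_mul, e3, e1, e2]
      calc ‖aa ψ A B κ L (m, n)‖ * ‖ch ν (m, n)‖ ≤
          (Dp ψ κ L * ((‖A m‖ * (m : ℝ) ^ (-(1 + 4 * κ))) * (‖B n‖ * (n : ℝ) ^ (-(1 + 4 * κ))))) *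
            ‖ch ν (m, n)‖ := by gcongr
        _ ≤ (Dp ψ κ L * (((D1 * (m:ℝ) ^ κ) * (m : ℝ) ^ (-(1 + 4 * κ))) *
            ((D2 * (n:ℝ) ^ κ) * (n : ℝ) ^ (-(1 + 4 * κ))))) * ‖ch ν (m, n)‖ := by gcongr
        _ = _ := by ring
  have hfin := hdiff.norm_le_of_bounded ((off_hasSum hκ ν).mul_left (Dp ψ κ L * (D1 * D2))) hbd
  refine hfin.trans (le_of_eq ?_)
  ring

/-- the main analytic statement -/
theorem core_w (h : TF ξ1 ψ) (hξ : 0 ≤ ξ1) (hκ : 0 < κ)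
    (G1 : DF F1 (1 + 4 * κ) R M C1) (G2 : DF F2 (1 + 4 * κ) R M C2)
    (E1 : DD F1 A κ D1) (E2 : DD F2 B κ D2) (N : ℕ) :
    ∃ C T1 : ℝ, 0 ≤ C ∧ Real.exp 1 ≤ T1 ∧ ∀ T : ℝ, T1 ≤ T → ∀ ν : Measure ℝ, IsProbabilityMeasure ν →
      (∀ᵐ t ∂ν, t ∈ Icc T (2 * T)) →
      ‖(∫ t, I0 ψ F1 F2 (Real.log T) t ∂ν) - ((2 * Real.pi / Real.log T : ℝ) : ℂ) *
          ∑' n : ℕ, A n * B n / n * ψ (2 * Real.log n / Real.log T)‖ ≤
        C * (Lam (3 * κ) ν * T ^ (ξ1 * (1 / 2 + 4 * κ)) + (T ^ N)⁻¹) := by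
  have hc : (1:ℝ) / 2 ≤ 1 + 4 * κ := by linarith
  obtain ⟨K, hK⟩ := exists_nat_ge (ξ1 * (1 / 2 + 4 * κ))
  obtain ⟨Cs, hCs, hs⟩ := shift h hξ G1 G2 hc (2 * M + K + N)
  have hw := series_w h hκ E1 E2
  have hD1 := E1.D_nonneg
  have hD2 := E2.D_nonneg
  obtain ⟨W, hWd⟩ : ∃ W, W = D1 * D2 := ⟨_, rfl⟩
  have hW : 0 ≤ W := by rw [hWd]; positivity
  rw [← hWd] at hw
  obtain ⟨Cd, hCd, hd⟩ := Dp_le h hκ
  refine ⟨Cs * 3 ^ (2 * M) + W * Cd, max (Real.exp 1) (2 * R), by positivity, le_max_left _ _, fun T hT ν hν hsup => ?_⟩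
  have hTe : Real.exp 1 ≤ T := (le_max_left _ _).trans hT
  have hTR : 2 * R ≤ T := (le_max_right _ _).trans hT
  have hT1 : 1 ≤ T := by have := Real.add_one_le_exp 1; linarith
  have hT0 : 0 < T := by linarith
  have hL : 1 ≤ Real.log T := by
    rw [Real.le_log_iff_exp_le hT0]; exact hTe
  have hδ := Lam_nonneg (3 * κ) ν
  obtain ⟨δ, hδd⟩ : ∃ δ, δ = Lam (3 * κ) ν := ⟨_, rfl⟩
  obtain ⟨L, hLd⟩ : ∃ L, L = Real.log T := ⟨_, rfl⟩
  have p2 := hw (Real.log T) hL ν hν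
  rw [← hδd] at hδ p2 ⊢
  rw [← hLd] at hL p2 ⊢
  have hE : Real.exp (ξ1 * (L * (1 + 4 * κ - 1 / 2))) = T ^ (ξ1 * (1 / 2 + 4 * κ)) := by
    rw [Real.rpow_def_of_pos hT0]
    congr 1; rw [hLd]; ring
  obtain ⟨E, hEd⟩ : ∃ E, E = T ^ (ξ1 * (1 / 2 + 4 * κ)) := ⟨_, rfl⟩
  rw [← hEd] at hE ⊢
  have hE0 : 0 ≤ E := by rw [hEd]; positivity
  have hEK : E ≤ T ^ K := by
    rw [hEd, ← Real.rpow_natCast]
    exact Real.rpow_le_rpow_of_exponent_le hT1 hK
  have iI : Integrable (I0 ψ F1 F2 L) ν := (I0_prod h G1 G2 hL hT0.le hsup).integral_prod_left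
  have iK : Integrable (K0 ψ F1 F2 (1 + 4 * κ) L) ν := (K0_prod h hc G1 G2 hL).integral_prod_left
  have p1 : ‖∫ t, (I0 ψ F1 F2 L t - K0 ψ F1 F2 (1 + 4 * κ) L t) ∂ν‖ ≤ Cs * 3 ^ (2 * M) * (T ^ N)⁻¹ := by
    have h1 := norm_integral_le_of_norm_le_const (μ := ν)
      (f := fun t => I0 ψ F1 F2 L t - K0 ψ F1 F2 (1 + 4 * κ) L t)
      (C := Cs * (E * (3 * T) ^ (2 * M)) / T ^ (2 * M + K + N)) (by
        filter_upwards [hsup] with t ht
        have h0 : 0 ≤ t := by linarith [ht.1]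
        refine (hs L T t hL hT1 hTR ht.1).trans ?_
        rw [hE]
        have := ht.2
        gcongr
        linarith)
    refine h1.trans ?_
    rw [probReal_univ, mul_one]
    calc Cs * (E * (3 * T) ^ (2 * M)) / T ^ (2 * M + K + N) ≤ Cs * (T ^ K * (3 * T) ^ (2 * M)) / T ^ (2 * M + K + N) := by
          gcongr
      _ = Cs * 3 ^ (2 * M) * (T ^ N)⁻¹ := by
          rw [mul_pow, pow_add, pow_add]
          field_simp
  have p3 := mul_le_mul_of_nonneg_left (hd L hL) (mul_nonneg hW hδ)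
  rw [hE] at p3
  rw [integral_sub iI iK] at p1
  have hTN : 0 ≤ (T ^ N)⁻¹ := by positivity
  calc _ = ‖((∫ t, I0 ψ F1 F2 L t ∂ν) - ∫ t, K0 ψ F1 F2 (1 + 4 * κ) L t ∂ν) +
        ((∫ t, K0 ψ F1 F2 (1 + 4 * κ) L t ∂ν) - ((2 * Real.pi / L : ℝ) : ℂ) *
          ∑' n : ℕ, A n * B n / n * ψ (2 * Real.log n / L))‖ := by
        congr 1; ring
    _ ≤ Cs * 3 ^ (2 * M) * (T ^ N)⁻¹ + W * δ * (Cd * E) := (norm_add_le _ _).trans (add_le_add p1 (p2.trans p3))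
    _ ≤ (Cs * 3 ^ (2 * M) + W * Cd) * (δ * E + (T ^ N)⁻¹) := by
        have e1 : 0 ≤ Cs * 3 ^ (2 * M) * (δ * E) := by positivity
        have e2 : 0 ≤ W * Cd * (T ^ N)⁻¹ := by positivity
        nlinarith [e1, e2]

/-- shifted moments, the heights distributed by `ν`, in terms of the weighted sum of the characters -/
theorem meas_w {ξ1 : ℝ} {ψ : ℝ → ℂ} (h : TF ξ1 ψ) (hξ : 0 ≤ ξ1) {κ : ℝ} (hκ : 0 < κ) {k l : ℕ} (z : Fin k → ℝ)
    (w : Fin l → ℝ) (N : ℕ) :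
    ∃ C T1 : ℝ, 0 ≤ C ∧ Real.exp 1 ≤ T1 ∧ ∀ T : ℝ, T1 ≤ T → ∀ ν : Measure ℝ, IsProbabilityMeasure ν →
      (∀ᵐ t ∂ν, t ∈ Icc T (2 * T)) →
      Integrable (fun y : ℝ => P ψ (Real.log T * y * I) * (∫ t,
        ZP z (1 / 2 + (y + t : ℝ) * I) * ZP w (1 / 2 + (y - t : ℝ) * I) ∂ν)) ∧
      ‖(∫ y : ℝ, P ψ (Real.log T * y * I) * (∫ t,
        ZP z (1 / 2 + (y + t : ℝ) * I) * ZP w (1 / 2 + (y - t : ℝ) * I) ∂ν)) -
        ((2 * Real.pi / Real.log T : ℝ) : ℂ) *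
          ∑' n : ℕ, tau (fun j => -(z j * I)) n * tau (fun j => -(w j * I)) n / n *
            ψ (2 * Real.log n / Real.log T)‖ ≤ C * (Lam (3 * κ) ν * T ^ (ξ1 * (1 / 2 + 4 * κ)) + (T ^ N)⁻¹) := by
  obtain ⟨D1, hD1, h1⟩ := tau_ptw k hκ
  obtain ⟨D2, hD2, h2⟩ := tau_ptw l hκ
  obtain ⟨C1, G1⟩ := ZP_DF z hκ hD1 (h1 z) (show 2 * k ≤ 2 * k + 2 * l by omega) (le_max_left (RR z) (RR w))
  obtain ⟨C2, G2⟩ := ZP_DF w hκ hD2 (h2 w) (show 2 * l ≤ 2 * k + 2 * l by omega) (le_max_right (RR z) (RR w))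
  obtain ⟨C, T1, hC, hT1, hc⟩ := core_w h hξ hκ G1 G2 (ZP_DD z hκ (h1 z)) (ZP_DD w hκ (h2 w)) N
  refine ⟨C, T1, hC, hT1, fun T hT ν hν hsup => ?_⟩
  have hTe : Real.exp 1 ≤ T := hT1.trans hT
  have hT1' : 1 ≤ T := by have := Real.add_one_le_exp 1; linarith
  have hT0 : 0 < T := by linarith
  have hL : 1 ≤ Real.log T := by
    rw [Real.le_log_iff_exp_le hT0]; exact hTe
  obtain ⟨i1, i2⟩ := swap_meas (ν := ν) h G1 G2 hL hT0.le hsup
  refine ⟨i1, ?_⟩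
  rw [i2]
  exact hc T hT ν hν hsup

end

end Pool.Agent.U183.HS
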